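import Pool.Agent.helper3.T5.SpecA

set_option autoImplicit false

/-! Row AIDL of project T5 (MP_16912e_nt): the ideals attached to a tuple. -/

namespace Pool.Agent.T5

open Finset NumberField Pool.Agent.helper3.FT Pool.Agent.helper47.RA

/-! ### Abstract relations -/

/-- all relations between the elements and their conjugates -/
structure AIDL_Rel {R : Type} [CommRing R] (α α' γ γ' u u' v v' θ θ' φ φ' Z Λ : R) : Prop where
  e1 : α * γ' = Λ * u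
  e1' : α' * γ = Λ * u'
  e2 : α * γ = Z * v
  e2' : α' * γ' = Z * v'
  e3 : α ^ 2 * γ' = Λ ^ 2 * θ
  e3' : α' ^ 2 * γ = Λ ^ 2 * θ'
  e4 : γ ^ 2 * α = Z ^ 2 * φ
  e4' : γ' ^ 2 * α' = Z ^ 2 * φ'
  nα : α * α' = Z ^ 2 * Λ
  nγ : γ * γ' = Z * Λ ^ 2
  hZ : Z ≠ 0
  hΛ : Λ ≠ 0

section abstractpart

variable {R : Type} [CommRing R] [IsDomain R] {α α' γ γ' u u' v v' θ θ' φ φ' Z Λ : R}

theorem AIDL_Rel.symm (h : AIDL_Rel α α' γ γ' u u' v v' θ θ' φ φ' Z Λ) :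
    AIDL_Rel α' α γ' γ u' u v' v θ' θ φ' φ Z Λ :=
  ⟨h.e1', h.e1, h.e2', h.e2, h.e3', h.e3, h.e4', h.e4, by rw [mul_comm]; exact h.nα,
    by rw [mul_comm]; exact h.nγ, h.hZ, h.hΛ⟩

theorem AIDL_Rel.r2 (h : AIDL_Rel α α' γ γ' u u' v v' θ θ' φ φ' Z Λ) : u' * α = Z ^ 2 * γ := by
  apply mul_left_cancel₀ h.hΛ
  linear_combination (-α) * h.e1' + γ * h.nα

theorem AIDL_Rel.r4 (h : AIDL_Rel α α' γ γ' u u' v v' θ θ' φ φ' Z Λ) : v' * γ = Λ ^ 2 * α' := by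
  apply mul_left_cancel₀ h.hZ
  linear_combination (-γ) * h.e2' + α' * h.nγ

theorem AIDL_Rel.r5 (h : AIDL_Rel α α' γ γ' u u' v v' θ θ' φ φ' Z Λ) : α * v' = Z * Λ * γ' := by
  apply mul_left_cancel₀ h.hZ
  linear_combination (-α) * h.e2' + γ' * h.nα

theorem AIDL_Rel.r6 (h : AIDL_Rel α α' γ γ' u u' v v' θ θ' φ φ' Z Λ) : u * γ = Z * Λ * α := by
  apply mul_left_cancel₀ h.hΛ
  linear_combination (-γ) * h.e1 + α * h.nγ

theorem AIDL_Rel.r7 (h : AIDL_Rel α α' γ γ' u u' v v' θ θ' φ φ' Z Λ) : Λ * γ' ^ 2 = α * φ' := by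
  apply mul_left_cancel₀ (pow_ne_zero 2 h.hZ)
  linear_combination α * h.e4' - γ' ^ 2 * h.nα

theorem AIDL_Rel.r8 (h : AIDL_Rel α α' γ γ' u u' v v' θ θ' φ φ' Z Λ) : θ * γ = Z * α ^ 2 := by
  apply mul_left_cancel₀ (pow_ne_zero 2 h.hΛ)
  linear_combination (-γ) * h.e3 + α ^ 2 * h.nγ

theorem AIDL_mem3 (p q s r : R) : r ∈ Ideal.span ({p, q, s} : Set R) ↔ ∃ x y z, r = x * p + y * q + z * s := by
  rw [Ideal.mem_span_insert]
  constructor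
  · rintro ⟨x, w, hw, rfl⟩
    rw [Ideal.mem_span_pair] at hw
    obtain ⟨y, z, rfl⟩ := hw
    exact ⟨x, y, z, by ring⟩
  · rintro ⟨x, y, z, rfl⟩
    exact ⟨x, y * q + z * s, Ideal.mem_span_pair.2 ⟨y, z, rfl⟩, by ring⟩

theorem AIDL_m1 (p q s : R) : p ∈ Ideal.span ({p, q, s} : Set R) := (AIDL_mem3 p q s p).2 ⟨1, 0, 0, by ring⟩

theorem AIDL_m2 (p q s : R) : q ∈ Ideal.span ({p, q, s} : Set R) := (AIDL_mem3 p q s q).2 ⟨0, 1, 0, by ring⟩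

theorem AIDL_m3 (p q s : R) : s ∈ Ideal.span ({p, q, s} : Set R) := (AIDL_mem3 p q s s).2 ⟨0, 0, 1, by ring⟩

/-- `a ā = (Z)` -/
theorem AIDL_aa (h : AIDL_Rel α α' γ γ' u u' v v' θ θ' φ φ' Z Λ)
    (hM : Ideal.span ({α, α', γ, γ', Z, Λ ^ 2} : Set R) = ⊤) :
    Ideal.span ({α, γ', Z} : Set R) * Ideal.span ({α', γ, Z} : Set R) = Ideal.span {Z} := by
  apply le_antisymm
  · rw [Ideal.mul_le]
    intro r hr s hs
    obtain ⟨x, y, z, rfl⟩ := (AIDL_mem3 _ _ _ _).1 hr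
    obtain ⟨x', y', z', rfl⟩ := (AIDL_mem3 _ _ _ _).1 hs
    rw [Ideal.mem_span_singleton]
    refine ⟨x * x' * (Z * Λ) + x * y' * v + x * z' * α + y * x' * v' + y * y' * Λ ^ 2 + y * z' * γ' +
      z * (x' * α' + y' * γ + z' * Z), ?_⟩
    linear_combination (x * x') * h.nα + (x * y') * h.e2 + (y * x') * h.e2' + (y * y') * h.nγ
  · have h1 : Ideal.span {Z} = Ideal.span {Z} * Ideal.span ({α, α', γ, γ', Z, Λ ^ 2} : Set R) := by
      rw [hM, Ideal.mul_top]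
    rw [h1, Ideal.span_mul_span', Ideal.span_le]
    rintro w ⟨z, hz, s, hs, rfl⟩
    rw [Set.mem_singleton_iff] at hz
    simp only [Set.mem_insert_iff, Set.mem_singleton_iff] at hs
    simp only [SetLike.mem_coe]
    rw [hz]
    rcases hs with hs | hs | hs | hs | hs | hs <;> rw [hs]
    · exact Ideal.mul_mem_mul_rev (AIDL_m1 _ _ _) (AIDL_m3 _ _ _)
    · exact Ideal.mul_mem_mul (AIDL_m3 _ _ _) (AIDL_m1 _ _ _)
    · exact Ideal.mul_mem_mul (AIDL_m3 _ _ _) (AIDL_m2 _ _ _)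
    · exact Ideal.mul_mem_mul_rev (AIDL_m2 _ _ _) (AIDL_m3 _ _ _)
    · exact Ideal.mul_mem_mul (AIDL_m3 _ _ _) (AIDL_m3 _ _ _)
    · rw [← h.nγ]
      exact Ideal.mul_mem_mul_rev (AIDL_m2 _ _ _) (AIDL_m2 _ _ _)

/-- `L L̄ = (Λ)` -/
theorem AIDL_LL (h : AIDL_Rel α α' γ γ' u u' v v' θ θ' φ φ' Z Λ)
    (hM : Ideal.span ({α, α', γ, γ', Z ^ 2, Λ} : Set R) = ⊤) :
    Ideal.span ({α, γ, Λ} : Set R) * Ideal.span ({α', γ', Λ} : Set R) = Ideal.span {Λ} := by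
  apply le_antisymm
  · rw [Ideal.mul_le]
    intro r hr s hs
    obtain ⟨x, y, z, rfl⟩ := (AIDL_mem3 _ _ _ _).1 hr
    obtain ⟨x', y', z', rfl⟩ := (AIDL_mem3 _ _ _ _).1 hs
    rw [Ideal.mem_span_singleton]
    refine ⟨x * x' * Z ^ 2 + x * y' * u + x * z' * α + y * x' * u' + y * y' * (Z * Λ) + y * z' * γ +
      z * (x' * α' + y' * γ' + z' * Λ), ?_⟩
    linear_combination (x * x') * h.nα + (x * y') * h.e1 + (y * x') * h.e1' + (y * y') * h.nγ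
  · have h1 : Ideal.span {Λ} = Ideal.span {Λ} * Ideal.span ({α, α', γ, γ', Z ^ 2, Λ} : Set R) := by
      rw [hM, Ideal.mul_top]
    rw [h1, Ideal.span_mul_span', Ideal.span_le]
    rintro w ⟨z, hz, s, hs, rfl⟩
    rw [Set.mem_singleton_iff] at hz
    simp only [Set.mem_insert_iff, Set.mem_singleton_iff] at hs
    simp only [SetLike.mem_coe]
    rw [hz]
    rcases hs with hs | hs | hs | hs | hs | hs <;> rw [hs]
    · exact Ideal.mul_mem_mul_rev (AIDL_m1 _ _ _) (AIDL_m3 _ _ _)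
    · exact Ideal.mul_mem_mul (AIDL_m3 _ _ _) (AIDL_m1 _ _ _)
    · exact Ideal.mul_mem_mul_rev (AIDL_m2 _ _ _) (AIDL_m3 _ _ _)
    · exact Ideal.mul_mem_mul (AIDL_m3 _ _ _) (AIDL_m2 _ _ _)
    · have e : Λ * Z ^ 2 = α * α' := by rw [h.nα, mul_comm]
      rw [e]
      exact Ideal.mul_mem_mul (AIDL_m1 _ _ _) (AIDL_m1 _ _ _)
    · exact Ideal.mul_mem_mul (AIDL_m3 _ _ _) (AIDL_m3 _ _ _)

/-- `a² L ≤ (α)` -/
theorem AIDL_le1 (h : AIDL_Rel α α' γ γ' u u' v v' θ θ' φ φ' Z Λ) :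
    Ideal.span ({α, γ', Z} : Set R) ^ 2 * Ideal.span ({α, γ, Λ} : Set R) ≤ Ideal.span {α} := by
  rw [sq, mul_assoc, Ideal.mul_le]
  intro r hr s hs
  obtain ⟨x, y, z, rfl⟩ := (AIDL_mem3 _ _ _ _).1 hr
  rw [mul_comm]
  refine Submodule.mul_induction_on hs ?_ ?_
  · intro r' hr' w hw
    obtain ⟨x', y', z', rfl⟩ := (AIDL_mem3 _ _ _ _).1 hr'
    obtain ⟨p, q, l, rfl⟩ := (AIDL_mem3 _ _ _ _).1 hw
    rw [Ideal.mem_span_singleton]
    refine ⟨x * (x' * α + y' * γ' + z' * Z) * (p * α + q * γ + l * Λ) +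
      x' * (y * γ' + z * Z) * (p * α + q * γ + l * Λ) + (y * γ' + z * Z) * (y' * γ' + z' * Z) * p +
      y * y' * q * (Λ * v') + y * y' * l * φ' + (y * z' + z * y') * q * (Λ * α') +
      (y * z' + z * y') * l * v' + z * z' * q * u' + z * z' * l * α', ?_⟩
    linear_combination (y * y' * q) * (γ' * h.nγ - Λ * h.r5) + (y * y' * l) * h.r7 +
      ((y * z' + z * y') * q) * (Z * h.nγ - Λ * h.nα) - ((y * z' + z * y') * l) * h.r5 -
      (z * z' * q) * h.r2 - (z * z' * l) * h.nα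
  · intro s1 s2 h1 h2
    rw [add_mul]
    exact Ideal.add_mem _ h1 h2

/-- `ā L² ≤ (γ)` -/
theorem AIDL_le2 (h : AIDL_Rel α α' γ γ' u u' v v' θ θ' φ φ' Z Λ) :
    Ideal.span ({α', γ, Z} : Set R) * Ideal.span ({α, γ, Λ} : Set R) ^ 2 ≤ Ideal.span {γ} := by
  rw [sq, Ideal.mul_le]
  intro r hr s hs
  obtain ⟨x, y, z, rfl⟩ := (AIDL_mem3 _ _ _ _).1 hr
  rw [mul_comm]
  refine Submodule.mul_induction_on hs ?_ ?_
  · intro r' hr' w hw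
    obtain ⟨x', y', z', rfl⟩ := (AIDL_mem3 _ _ _ _).1 hr'
    obtain ⟨p, q, l, rfl⟩ := (AIDL_mem3 _ _ _ _).1 hw
    rw [Ideal.mem_span_singleton]
    refine ⟨y * (x' * α + y' * γ + z' * Λ) * (p * α + q * γ + l * Λ) +
      y' * (x * α' + z * Z) * (p * α + q * γ + l * Λ) + (x * α' + z * Z) * (x' * α + z' * Λ) * q +
      x * x' * p * (Z * u) + x * (x' * l + z' * p) * (Z * γ') + x * z' * l * v' +
      z * x' * p * θ + z * (x' * l + z' * p) * u + z * z' * l * γ', ?_⟩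
    linear_combination (x * x' * p) * (α * h.nα - Z * h.r6) + (x * (x' * l + z' * p)) * (Λ * h.nα - Z * h.nγ) -
      (x * z' * l) * h.r4 - (z * x' * p) * h.r8 - (z * (x' * l + z' * p)) * h.r6 - (z * z' * l) * h.nγ
  · intro s1 s2 h1 h2
    rw [add_mul]
    exact Ideal.add_mem _ h1 h2

end abstractpart

theorem AIDL_cancel {R : Type} [CommRing R] [IsDedekindDomain R] {I J A B : Ideal R}
    (h1 : I ≤ A) (h2 : J ≤ B) (h : I * J = A * B) (h0 : A * B ≠ ⊥) : I = A := by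
  obtain ⟨C, hC⟩ := Ideal.dvd_iff_le.2 h1
  obtain ⟨C', hC'⟩ := Ideal.dvd_iff_le.2 h2
  have h3 : (A * B) * (C * C') = (A * B) * 1 := by
    calc (A * B) * (C * C') = (A * C) * (B * C') := by ring
      _ = I * J := by rw [← hC, ← hC']
      _ = (A * B) * 1 := by rw [h, mul_one]
  have h4 : C * C' = 1 := mul_left_cancel₀ (by rwa [← Ideal.zero_eq_bot] at h0) h3
  have h5 : C = 1 := by
    rw [Ideal.one_eq_top, ← Ideal.isUnit_iff]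
    exact IsUnit.of_mul_eq_one _ h4
  rw [hC, h5, mul_one]

/-- the prime number below a prime ideal -/
theorem AIDL_prime {R : Type} [CommRing R] (P : Ideal R) [hP : P.IsPrime] (z : ℤ) (hz : z ≠ 0)
    (h : (z : R) ∈ P) : ∃ p : ℕ, p.Prime ∧ ∀ w : ℤ, (w : R) ∈ P ↔ (p : ℤ) ∣ w := by
  set J : Ideal ℤ := P.comap (Int.castRingHom R) with hJ
  have hJp : J.IsPrime := Ideal.comap_isPrime _ _
  have hmem : ∀ w : ℤ, w ∈ J ↔ (w : R) ∈ P := by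
    intro w
    rw [hJ, Ideal.mem_comap]
    rfl
  have hz' : z ∈ J := (hmem z).2 h
  have hne : J ≠ ⊥ := by
    intro h0
    rw [h0, Ideal.mem_bot] at hz'
    exact hz hz'
  have hg : Prime (Submodule.IsPrincipal.generator J) := Submodule.IsPrincipal.prime_generator_of_isPrime J hne
  refine ⟨(Submodule.IsPrincipal.generator J).natAbs, Int.prime_iff_natAbs_prime.1 hg, ?_⟩
  intro w
  rw [← hmem, Int.natAbs_dvd]
  exact Submodule.IsPrincipal.mem_iff_generator_dvd J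

section field

variable {K : Type} [Field K] [NumberField K]

theorem AIDL_Ydvd (Q : QF K) (q : ℕ) (x : 𝓞 K) (h : (q : 𝓞 K) ∣ x) : (q : ℤ) ∣ Q.Y x := by
  obtain ⟨y, rfl⟩ := h
  have h1 : (q : 𝓞 K) * y = ((q : ℤ) : 𝓞 K) * y := by push_cast; rfl
  rw [h1, Q.Y_int_mul]
  exact dvd_mul_right _ _

theorem AIDL_int (Q : QF K) (q : ℕ) (hq : q.Prime) (z : ℤ) (h : (q : 𝓞 K) ∣ (z : 𝓞 K)) : (q : ℤ) ∣ z := by
  have h1 := (Q.int_dvd_iff (q : ℤ) (by exact_mod_cast hq.ne_zero) z 0).1 (by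
    simpa using h)
  exact h1.1

/-- `p ∤ f` and `p ∣ f n`, `p ∣ f k` is impossible -/
theorem AIDL_nk {t : Tpl} (ht : IsT t) {f p : ℕ} (hp : p.Prime) (hf : ¬ p ∣ f) (h1 : (p : ℤ) ∣ (f : ℤ) * t.1.1)
    (h2 : (p : ℤ) ∣ (f : ℤ) * t.1.2) : False := by
  have h1' : p ∣ f * t.1.1 := by exact_mod_cast h1
  have h2' : p ∣ f * t.1.2 := by exact_mod_cast h2
  have h3 : p ∣ t.1.1 := (hp.dvd_mul.1 h1').resolve_left hf
  have h4 : p ∣ t.1.2 := (hp.dvd_mul.1 h2').resolve_left hf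
  have h5 := Nat.dvd_gcd h3 h4
  rw [ht.co] at h5
  exact hp.one_lt.ne' (Nat.dvd_one.1 h5)

theorem AIDL_noP (hARAM : ARAM_stmt) (Q : QF K) (f : ℕ) (t : Tpl) (α γ u v θ θ' : 𝓞 K) (ht : IsT t)
    (hZ : t.2.2.2 ≠ 0) (hco : ∀ p : ℕ, p.Prime → p ∣ f → ¬ (p : ℤ) ∣ t.2.2.2 ∧ ¬ (p : ℤ) ∣ lam t)
    (h : Els Q f t α γ u v θ θ') (P : Ideal (𝓞 K)) (hP : P.IsPrime) (h1 : α ∈ P) (h2 : Q.cj α ∈ P)
    (h3 : γ ∈ P) (h4 : Q.cj γ ∈ P) (h5 : ((t.2.2.2 : ℤ) : 𝓞 K) ∈ P) (h6 : ((lam t : ℤ) : 𝓞 K) ∈ P) : False := by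
  obtain ⟨p, hp, hpP⟩ := AIDL_prime P t.2.2.2 hZ h5
  have pZ : (p : ℤ) ∣ t.2.2.2 := (hpP _).1 h5
  have pL : (p : ℤ) ∣ lam t := (hpP _).1 h6
  have pf : ¬ p ∣ f := fun hf => (hco p hp hf).1 pZ
  have key : ((Q.D : ℤ) : 𝓞 K) ∈ P := by
    have e1 := P.sub_mem h1 h2
    have e2 := P.sub_mem h3 h4
    rw [Q.sub_cj, h.yα] at e1
    rw [Q.sub_cj, h.yγ] at e2
    have hδ : (2 * Q.ω - Q.t : 𝓞 K) ∈ P := by
      by_contra hn
      have e3 := (hP.mem_or_mem e1).resolve_right hn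
      have e4 := (hP.mem_or_mem e2).resolve_right hn
      exact AIDL_nk ht hp pf ((hpP _).1 e3) ((hpP _).1 e4)
    rw [← Q.delta_sq]
    exact P.pow_mem_of_mem hδ 2 (by norm_num)
  have pD : (p : ℤ) ∣ Q.D := (hpP _).1 key
  have a1 : (p : 𝓞 K) ∣ α := by
    apply hARAM K Q α (t.2.2.2 ^ 2 * lam t) p hp pD
    · rw [h.nα]
      push_cast
      ring
    · exact Dvd.dvd.mul_right (pow_dvd_pow_of_dvd pZ 2) _
  have a2 : (p : 𝓞 K) ∣ γ := by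
    apply hARAM K Q γ (t.2.2.2 * lam t ^ 2) p hp pD
    · rw [h.nγ]
      push_cast
      ring
    · exact Dvd.dvd.mul_left (pow_dvd_pow_of_dvd pL 2) _
  have b1 := AIDL_Ydvd Q p α a1
  have b2 := AIDL_Ydvd Q p γ a2
  rw [h.yα] at b1
  rw [h.yγ] at b2
  exact AIDL_nk ht hp pf b1 b2

theorem AIDL_rel (Q : QF K) (f : ℕ) (t : Tpl) (α γ u v θ θ' : 𝓞 K) (hZ : t.2.2.2 ≠ 0) (hΛ : lam t ≠ 0)
    (h : Els Q f t α γ u v θ θ') :
    AIDL_Rel α (Q.cj α) γ (Q.cj γ) u (Q.cj u) v (Q.cj v) θ (Q.cj θ) θ' (Q.cj θ')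
      ((t.2.2.2 : ℤ) : 𝓞 K) ((lam t : ℤ) : 𝓞 K) := by
  have cast_ne : ∀ z : ℤ, z ≠ 0 → (z : 𝓞 K) ≠ 0 := fun z hz h0 => hz (by exact_mod_cast h0)
  refine ⟨h.e1, ?_, h.e2, ?_, h.e3, ?_, h.e4, ?_, h.nα, h.nγ, cast_ne _ hZ, cast_ne _ hΛ⟩
  · have := congrArg Q.cj h.e1
    rw [map_mul, map_mul, Q.cj_cj, Q.cj_int] at this
    exact this
  · have := congrArg Q.cj h.e2
    rw [map_mul, map_mul, Q.cj_int] at this
    exact this
  · have := congrArg Q.cj h.e3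
    rw [map_mul, map_mul, map_pow, map_pow, Q.cj_cj, Q.cj_int] at this
    exact this
  · have := congrArg Q.cj h.e4
    rw [map_mul, map_mul, map_pow, map_pow, Q.cj_int] at this
    exact this

theorem AIDL_dvd_of_span {q : ℕ} {p s r x : 𝓞 K} (h : Ideal.span {(q : 𝓞 K)} ∣ Ideal.span ({p, s, r} : Set (𝓞 K)))
    (hx : x ∈ Ideal.span ({p, s, r} : Set (𝓞 K))) : (q : 𝓞 K) ∣ x := by
  rw [Ideal.dvd_iff_le] at h
  exact Ideal.mem_span_singleton.1 (h hx)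

end field

theorem AIDL (hARAM : ARAM_stmt) : AIDL_stmt := by
  intro K _ _ Q f t α γ u v θ θ' ht hf hZ hΛ hco h
  have R := AIDL_rel Q f t α γ u v θ θ' hZ hΛ h
  have R' := R.symm
  set Z : 𝓞 K := ((t.2.2.2 : ℤ) : 𝓞 K) with hZdef
  set Λ : 𝓞 K := ((lam t : ℤ) : 𝓞 K) with hΛdef
  -- the two ideals which are the whole ring
  have hM : Ideal.span ({α, Q.cj α, γ, Q.cj γ, Z, Λ ^ 2} : Set (𝓞 K)) = ⊤ := by
    by_contra hne
    obtain ⟨P, hPm, hle⟩ := Ideal.exists_le_maximal _ hne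
    have hs : ∀ x ∈ ({α, Q.cj α, γ, Q.cj γ, Z, Λ ^ 2} : Set (𝓞 K)), x ∈ P :=
      fun x hx => hle (Ideal.subset_span hx)
    have hL := hPm.isPrime.mem_of_pow_mem 2 (hs (Λ ^ 2) (by simp))
    exact AIDL_noP hARAM Q f t α γ u v θ θ' ht hZ hco h P hPm.isPrime (hs _ (by simp)) (hs _ (by simp))
      (hs _ (by simp)) (hs _ (by simp)) (hs Z (by simp)) hL
  have hM' : Ideal.span ({α, Q.cj α, γ, Q.cj γ, Z ^ 2, Λ} : Set (𝓞 K)) = ⊤ := by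
    by_contra hne
    obtain ⟨P, hPm, hle⟩ := Ideal.exists_le_maximal _ hne
    have hs : ∀ x ∈ ({α, Q.cj α, γ, Q.cj γ, Z ^ 2, Λ} : Set (𝓞 K)), x ∈ P :=
      fun x hx => hle (Ideal.subset_span hx)
    have hZP := hPm.isPrime.mem_of_pow_mem 2 (hs (Z ^ 2) (by simp))
    exact AIDL_noP hARAM Q f t α γ u v θ θ' ht hZ hco h P hPm.isPrime (hs _ (by simp)) (hs _ (by simp))
      (hs _ (by simp)) (hs _ (by simp)) hZP (hs Λ (by simp))
  have ha := AIDL_aa R hM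
  have hL := AIDL_LL R hM'
  -- the conjugate of the first ideal
  have hbar : Q.bar (Ideal.span ({α, Q.cj γ, Z} : Set (𝓞 K))) = Ideal.span ({Q.cj α, γ, Z} : Set (𝓞 K)) := by
    unfold QF.bar
    rw [Ideal.map_span]
    congr 1
    rw [Set.image_insert_eq, Set.image_insert_eq, Set.image_singleton, Q.cj_cj, hZdef, Q.cj_int]
  have hZ0 : Z ≠ 0 := R.hZ
  have hΛ0 : Λ ≠ 0 := R.hΛ
  have hα0 : α ≠ 0 := by
    intro h0
    have := R.nα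
    rw [h0, zero_mul] at this
    exact mul_ne_zero (pow_ne_zero 2 hZ0) hΛ0 this.symm
  have hα0' : Q.cj α ≠ 0 := by
    intro h0
    have := R.nα
    rw [h0, mul_zero] at this
    exact mul_ne_zero (pow_ne_zero 2 hZ0) hΛ0 this.symm
  have hγ0 : γ ≠ 0 := by
    intro h0
    have := R.nγ
    rw [h0, zero_mul] at this
    exact mul_ne_zero hZ0 (pow_ne_zero 2 hΛ0) this.symm
  have hγ0' : Q.cj γ ≠ 0 := by
    intro h0
    have := R.nγ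
    rw [h0, mul_zero] at this
    exact mul_ne_zero hZ0 (pow_ne_zero 2 hΛ0) this.symm
  have hspan : ∀ x : 𝓞 K, x ≠ 0 → Ideal.span {x} ≠ ⊥ := fun x hx h0 =>
    hx (Ideal.span_singleton_eq_bot.1 h0)
  refine ⟨Ideal.span ({α, Q.cj γ, Z} : Set (𝓞 K)), Ideal.span ({α, γ, Λ} : Set (𝓞 K)), ?_, ?_, ?_, ?_⟩
  · symm
    refine AIDL_cancel (J := Ideal.span ({Q.cj α, γ, Z} : Set (𝓞 K)) ^ 2 * Ideal.span ({Q.cj α, Q.cj γ, Λ} : Set (𝓞 K)))
      (B := Ideal.span {Q.cj α}) (AIDL_le1 R) (AIDL_le1 R') ?_ ?_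
    · calc Ideal.span ({α, Q.cj γ, Z} : Set (𝓞 K)) ^ 2 * Ideal.span ({α, γ, Λ} : Set (𝓞 K)) *
            (Ideal.span ({Q.cj α, γ, Z} : Set (𝓞 K)) ^ 2 * Ideal.span ({Q.cj α, Q.cj γ, Λ} : Set (𝓞 K)))
          = (Ideal.span ({α, Q.cj γ, Z} : Set (𝓞 K)) * Ideal.span ({Q.cj α, γ, Z} : Set (𝓞 K))) ^ 2 *
            (Ideal.span ({α, γ, Λ} : Set (𝓞 K)) * Ideal.span ({Q.cj α, Q.cj γ, Λ} : Set (𝓞 K))) := by ring
        _ = Ideal.span {α} * Ideal.span {Q.cj α} := by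
          rw [ha, hL, Ideal.span_singleton_pow, Ideal.span_singleton_mul_span_singleton,
            Ideal.span_singleton_mul_span_singleton, R.nα]
    · rw [Ideal.span_singleton_mul_span_singleton]
      exact hspan _ (mul_ne_zero hα0 hα0')
  · rw [hbar]
    symm
    refine AIDL_cancel (J := Ideal.span ({α, Q.cj γ, Z} : Set (𝓞 K)) * Ideal.span ({Q.cj α, Q.cj γ, Λ} : Set (𝓞 K)) ^ 2)
      (B := Ideal.span {Q.cj γ}) (AIDL_le2 R) (AIDL_le2 R') ?_ ?_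
    · calc Ideal.span ({Q.cj α, γ, Z} : Set (𝓞 K)) * Ideal.span ({α, γ, Λ} : Set (𝓞 K)) ^ 2 *
            (Ideal.span ({α, Q.cj γ, Z} : Set (𝓞 K)) * Ideal.span ({Q.cj α, Q.cj γ, Λ} : Set (𝓞 K)) ^ 2)
          = (Ideal.span ({α, Q.cj γ, Z} : Set (𝓞 K)) * Ideal.span ({Q.cj α, γ, Z} : Set (𝓞 K))) *
            (Ideal.span ({α, γ, Λ} : Set (𝓞 K)) * Ideal.span ({Q.cj α, Q.cj γ, Λ} : Set (𝓞 K))) ^ 2 := by ring
        _ = Ideal.span {γ} * Ideal.span {Q.cj γ} := by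
          rw [ha, hL, Ideal.span_singleton_pow, Ideal.span_singleton_mul_span_singleton,
            Ideal.span_singleton_mul_span_singleton, R.nγ]
    · rw [Ideal.span_singleton_mul_span_singleton]
      exact hspan _ (mul_ne_zero hγ0 hγ0')
  · intro q hq hd
    have d1 := AIDL_Ydvd Q q _ (AIDL_dvd_of_span hd (AIDL_m1 α (Q.cj γ) Z))
    have d2 := AIDL_Ydvd Q q _ (AIDL_dvd_of_span hd (AIDL_m2 α (Q.cj γ) Z))
    have d3 := AIDL_int Q q hq _ (AIDL_dvd_of_span hd (AIDL_m3 α (Q.cj γ) Z))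
    rw [h.yα] at d1
    rw [Q.Y_cj, h.yγ, dvd_neg] at d2
    exact AIDL_nk ht hq (fun hf' => (hco q hq hf').1 d3) d1 d2
  · intro q hq hd
    have d1 := AIDL_Ydvd Q q _ (AIDL_dvd_of_span hd (AIDL_m1 α γ Λ))
    have d2 := AIDL_Ydvd Q q _ (AIDL_dvd_of_span hd (AIDL_m2 α γ Λ))
    have d3 := AIDL_int Q q hq _ (AIDL_dvd_of_span hd (AIDL_m3 α γ Λ))
    rw [h.yα] at d1
    rw [h.yγ] at d2
    exact AIDL_nk ht hq (fun hf' => (hco q hq hf').2 d3) d1 d2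

end Pool.Agent.T5
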